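import Pool.Graph.R_pool_sql_team_seeded_620a6dc7.Helper326_TP.Core

set_option autoImplicit false

/-!
The main theorem for spanning families of points and balanced systems of affine functions.
-/

namespace Pool.Agent.H33.TV

open Pool.Agent.Helper326_TP

/-- the values of the combinations of the system at the pairs (label, vertex) -/
noncomputable def ev {E : Type} [NormedAddCommGroup E] [InnerProductSpace ℝ E] {ι κ : Type}
    [Fintype ι] [Fintype κ] {r : ℕ} (p : ι → E) (U : κ → Fin r → (E →ᵃ[ℝ] ℝ)) :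
    (κ → ℝ) →ₗ[ℝ] X r ι where
  toFun c := WithLp.toLp 2 (fun q : Fin r × ι => ∑ k, c k * U k q.1 (p q.2))
  map_add' a b := by
    ext q
    simp only [Pi.add_apply, add_mul, Finset.sum_add_distrib, PiLp.add_apply]
  map_smul' x a := by
    ext q
    simp only [Pi.smul_apply, smul_eq_mul, RingHom.id_apply, PiLp.smul_apply, Finset.mul_sum,
      mul_assoc]

theorem ev_apply {E : Type} [NormedAddCommGroup E] [InnerProductSpace ℝ E] {ι κ : Type}
    [Fintype ι] [Fintype κ] {r : ℕ} (p : ι → E) (U : κ → Fin r → (E →ᵃ[ℝ] ℝ)) (c : κ → ℝ)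
    (q : Fin r × ι) : ev p U c q = ∑ k, c k * U k q.1 (p q.2) := rfl

theorem core {E : Type} [NormedAddCommGroup E] [InnerProductSpace ℝ E] [FiniteDimensional ℝ E]
    {ι κ : Type} [Fintype ι] [Nonempty ι] [Fintype κ] (p : ι → E)
    (hp : affineSpan ℝ (Set.range p) = ⊤) {r : ℕ} (hr : 2 ≤ r)
    (hm : Fintype.card κ ≤ Module.finrank ℝ E) (U : κ → Fin r → (E →ᵃ[ℝ] ℝ))
    (hU : ∀ k v, ∑ j, U k j (p v) = 0) :
    ∃ (g : Fin r → (E →ᵃ[ℝ] ℝ)) (ψ : ℝ) (w : Fin r → ι → ℝ),
      (∀ j v, ψ ≤ g j (p v)) ∧ (∀ j v, 0 ≤ w j v) ∧ (∑ j, ∑ v, w j v = 1) ∧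
      (∀ j v, w j v ≠ 0 → g j (p v) = ψ) ∧
      (∀ v i j, i ≠ j → ¬ (g i (p v) = ψ ∧ g j (p v) = ψ)) ∧
      ∀ k, ∑ j, ∑ v, w j v * U k j (p v) = 0 := by
  classical
  have : NeZero r := ⟨by omega⟩
  obtain ⟨o, c, hc, ho, hgen⟩ := generic_point p hp
  have hfin : Module.finrank ℝ (LinearMap.range (ev p U)) ≤ Fintype.card κ := by
    refine (LinearMap.finrank_range_le _).trans ?_
    simp
  have hzero : ∀ u ∈ LinearMap.range (ev p U), ∀ v, ∑ j, u (j, v) = 0 := by
    rintro _ ⟨c, rfl⟩ v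
    simp only [ev_apply]
    rw [Finset.sum_comm]
    refine Finset.sum_eq_zero fun k _ => ?_
    rw [← Finset.mul_sum, hU, mul_zero]
  obtain ⟨a, ha⟩ := generic_height (r := r) p (LinearMap.range (ev p U)) (hfin.trans hm)
  obtain ⟨u, hu, s, w, w0, w1, wsupp, stat, tie⟩ :=
    untied hr p (LinearMap.range (ev p U)) hzero (fun j v => a j (p v)) o c hc ho hgen ha
  obtain ⟨cj, hcj⟩ := hu
  have hcj' : ∀ j v, u (j, v) = ∑ k, cj k * U k j (p v) := by
    intro j v
    rw [← hcj]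
    rfl
  set g : Fin r → (E →ᵃ[ℝ] ℝ) := fun j => a j +
    ∑ k, cj k • U k j + (innerSL ℝ s).toLinearMap.toAffineMap with hg
  have hgv : ∀ j v, g j (p v) = hv p (fun j v => a j (p v)) u s j v := by
    intro j v
    rw [hg, hv, hcj' j v]
    simp [J_core.sum_apply]
  obtain ⟨q0, hq0⟩ := Finite.exists_min (fun q : Fin r × ι =>
    hv p (fun j v => a j (p v)) u s q.1 q.2)
  have hmin : ∀ j v, hv p (fun j v => a j (p v)) u s q0.1 q0.2 ≤
      hv p (fun j v => a j (p v)) u s j v := fun j v => hq0 (j, v)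
  refine ⟨g, hv p (fun j v => a j (p v)) u s q0.1 q0.2, fun j v => w (j, v), ?_, ?_, ?_, ?_, ?_, ?_⟩
  · intro j v
    rw [hgv]
    exact hmin j v
  · intro j v
    exact w0 _
  · rw [← w1, Fintype.sum_prod_type]
  · intro j v hwn
    rw [hgv]
    exact le_antisymm (wsupp j v hwn _ _) (hmin j v)
  · rintro v i j hij ⟨h1, h2⟩
    apply tie v i j hij
    rw [hgv] at h1 h2
    constructor
    · intro j' v'
      rw [h1]
      exact hmin j' v'
    · intro j' v'
      rw [h2]
      exact hmin j' v'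
  · intro k
    have h3 := stat (ev p U (Pi.single k 1)) ⟨_, rfl⟩
    rw [Fintype.sum_prod_type] at h3
    rw [← h3]
    refine Finset.sum_congr rfl fun j _ => Finset.sum_congr rfl fun v _ => ?_
    rw [ev_apply, Finset.sum_eq_single k]
    · simp
    · intro b _ hb
      simp [hb]
    · intro h
      exact absurd (Finset.mem_univ _) h

end Pool.Agent.H33.TV
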