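import Pool.Agent.H33.TV.Poly

set_option autoImplicit false
set_option linter.unusedSectionVars false

/-!
Faces of polytopes: subfaces, exits through proper faces.
-/

namespace Pool.Agent.H33.TV

variable {V : Type} [NormedAddCommGroup V] [InnerProductSpace ℝ V] [FiniteDimensional ℝ V]

theorem dimSet_eq (P : Set V) : dimSet P = Module.finrank ℝ (vectorSpan ℝ P) := by
  rw [dimSet, direction_affineSpan]

theorem isFace_iff (P F : Set V) : IsFace P F ↔ F.Nonempty ∧ ∃ (l : V →ₗ[ℝ] ℝ) (c : ℝ),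
    (∀ x ∈ P, c ≤ l x) ∧ F = {x | x ∈ P ∧ l x = c} := by
  constructor
  · rintro ⟨hne, h⟩
    refine ⟨hne, ?_⟩
    rcases h with rfl | ⟨l, c, -, h1, h2⟩
    · refine ⟨0, 0, fun x _ => le_rfl, ?_⟩
      ext x
      simp
    · exact ⟨l, c, h1, h2⟩
  · rintro ⟨hne, l, c, h1, h2⟩
    refine ⟨hne, ?_⟩
    by_cases h0 : l = 0
    · left
      obtain ⟨y, hy⟩ := hne
      rw [h2] at hy
      have hc : c = 0 := by rw [← hy.2, h0]; rfl
      rw [h2]
      ext x
      constructor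
      · exact fun h => h.1
      · intro h
        exact ⟨h, by rw [hc, h0]; rfl⟩
    · exact Or.inr ⟨l, c, h0, h1, h2⟩

theorem hull_ge (S : Finset V) (l : V →ₗ[ℝ] ℝ) (c : ℝ) (h : ∀ v ∈ S, c ≤ l v) :
    ∀ x ∈ convexHull ℝ (S : Set V), c ≤ l x := by
  intro x hx
  have hsub : convexHull ℝ (S : Set V) ⊆ {y | c ≤ l y} := by
    apply convexHull_min
    · intro y hy
      exact h y hy
    · exact convex_halfSpace_ge l.isLinear c
  exact hsub hx

/-- A point where a functional attains its least value is a combination of such vertices. -/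
theorem hull_face (S : Finset V) (l : V →ₗ[ℝ] ℝ) (c : ℝ) (h : ∀ v ∈ S, c ≤ l v) (x : V)
    (hx : x ∈ convexHull ℝ (S : Set V)) (hl : l x = c) :
    ∃ μ : V → ℝ, (∀ y ∈ S, 0 ≤ μ y) ∧ ∑ y ∈ S, μ y = 1 ∧ ∑ y ∈ S, μ y • y = x ∧
      ∀ y ∈ S, μ y ≠ 0 → l y = c := by
  rw [Finset.mem_convexHull'] at hx
  obtain ⟨μ, hμ0, hμ1, hμx⟩ := hx
  refine ⟨μ, hμ0, hμ1, hμx, ?_⟩
  intro y hy hμy
  have e1 : ∑ y ∈ S, μ y * (l y - c) = 0 := by
    simp_rw [mul_sub, Finset.sum_sub_distrib, ← Finset.sum_mul, hμ1, one_mul]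
    rw [← hμx, map_sum] at hl
    simp_rw [map_smul, smul_eq_mul] at hl
    linarith
  have e2 := (Finset.sum_eq_zero_iff_of_nonneg (fun y hy => mul_nonneg (hμ0 y hy)
    (sub_nonneg.mpr (h y hy)))).mp e1 y hy
  rcases mul_eq_zero.mp e2 with h | h
  · exact absurd h hμy
  · linarith

theorem exists_weight (S : Finset V) (μ : V → ℝ) (h1 : ∑ y ∈ S, μ y = 1) : ∃ y ∈ S, μ y ≠ 0 := by
  by_contra hcon
  push Not at hcon
  rw [Finset.sum_eq_zero hcon] at h1
  exact zero_ne_one h1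

/-- Faces without common vertices are disjoint. -/
theorem disjoint_faces (S : Finset V) (l l' : V →ₗ[ℝ] ℝ) (c c' : ℝ) (h : ∀ v ∈ S, c ≤ l v)
    (h' : ∀ v ∈ S, c' ≤ l' v) (hne : ∀ v ∈ S, ¬ (l v = c ∧ l' v = c')) :
    Disjoint {x | x ∈ convexHull ℝ (S : Set V) ∧ l x = c}
      {x | x ∈ convexHull ℝ (S : Set V) ∧ l' x = c'} := by
  rw [Set.disjoint_left]
  rintro x ⟨hx, hxi⟩ ⟨_, hxj⟩
  obtain ⟨μ, hμ0, hμ1, hμx, hμ⟩ := hull_face S l c h x hx hxi
  have hz : ∀ y ∈ S, μ y ≠ 0 → l' y = c' := by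
    intro y hy hμy
    have e1 : ∑ y ∈ S, μ y * (l' y - c') = 0 := by
      simp_rw [mul_sub, Finset.sum_sub_distrib, ← Finset.sum_mul, hμ1, one_mul]
      rw [← hμx, map_sum] at hxj
      simp_rw [map_smul, smul_eq_mul] at hxj
      linarith
    have e2 := (Finset.sum_eq_zero_iff_of_nonneg (fun y hy => mul_nonneg (hμ0 y hy)
      (sub_nonneg.mpr (h' y hy)))).mp e1 y hy
    rcases mul_eq_zero.mp e2 with h | h
    · exact absurd h hμy
    · linarith
  obtain ⟨y, hy, hμy⟩ := exists_weight S μ hμ1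
  exact hne y hy ⟨hμ y hy hμy, hz y hy hμy⟩

/-- A face of a face of a polytope is a face. -/
theorem subface {P : Set V} (hP : IsPolytope P) {F : Set V} (hF : IsFace P F) (l : V →ₗ[ℝ] ℝ) (c : ℝ)
    (h : ∀ x ∈ F, c ≤ l x) (hne : {x | x ∈ F ∧ l x = c}.Nonempty) :
    IsFace P {x | x ∈ F ∧ l x = c} := by
  classical
  obtain ⟨S, hS, rfl⟩ := hP
  obtain ⟨hFne, l1, c1, h1, hF⟩ := (isFace_iff _ _).1 hF
  have hsub := subset_convexHull ℝ (S : Set V)
  -- a large multiple
  obtain ⟨M, hM⟩ : ∃ M : ℝ, ∀ v ∈ S, c1 < l1 v → 0 < M * (l1 v - c1) + (l v - c) := by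
    have : ∀ v : V, ∃ M : ℝ, ∀ M' ≥ M, c1 < l1 v → 0 < M' * (l1 v - c1) + (l v - c) := by
      intro v
      refine ⟨(c - l v) / (l1 v - c1) + 1, fun M' hM' hv => ?_⟩
      have hpos : 0 < l1 v - c1 := sub_pos.2 hv
      have h2 : ((c - l v) / (l1 v - c1) + 1) * (l1 v - c1) ≤ M' * (l1 v - c1) :=
        mul_le_mul_of_nonneg_right hM' hpos.le
      rw [add_mul, div_mul_cancel₀ _ hpos.ne', one_mul] at h2
      linarith
    choose M hM using this
    obtain ⟨B, hB⟩ := (S.image M).bddAbove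
    refine ⟨B, fun v hv hl => hM v B (hB ?_) hl⟩
    exact Finset.mem_coe.2 (Finset.mem_image_of_mem M hv)
  have hv0 : ∀ v ∈ S, l1 v = c1 → c ≤ l v := by
    intro v hv hl
    apply h
    rw [hF]
    exact ⟨hsub hv, hl⟩
  have hL : ∀ v ∈ S, M * c1 + c ≤ (M • l1 + l) v := by
    intro v hv
    show _ ≤ M * l1 v + l v
    rcases (h1 v (hsub hv)).eq_or_lt with h2 | h2
    · rw [← h2]
      have := hv0 v hv h2.symm
      linarith
    · have := hM v hv h2
      linarith
  have hLeq : ∀ v ∈ S, (M • l1 + l) v = M * c1 + c → l1 v = c1 ∧ l v = c := by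
    intro v hv he
    have he' : M * l1 v + l v = M * c1 + c := he
    rcases (h1 v (hsub hv)).eq_or_lt with h2 | h2
    · rw [← h2] at he'
      exact ⟨h2.symm, by linarith⟩
    · have := hM v hv h2
      linarith
  rw [isFace_iff]
  refine ⟨hne, M • l1 + l, M * c1 + c, hull_ge S _ _ hL, ?_⟩
  ext x
  constructor
  · rintro ⟨hxF, hxl⟩
    rw [hF] at hxF
    refine ⟨hxF.1, ?_⟩
    show M * l1 x + l x = M * c1 + c
    rw [hxF.2, hxl]
  · rintro ⟨hxP, hx⟩
    obtain ⟨μ, hμ0, hμ1, hμx, hμ⟩ := hull_face S _ _ hL x hxP hx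
    have e1 : l1 x = c1 := by
      rw [← hμx, map_sum]
      have : ∀ y ∈ S, l1 (μ y • y) = μ y * c1 := by
        intro y hy
        rw [map_smul, smul_eq_mul]
        by_cases h0 : μ y = 0
        · rw [h0, zero_mul, zero_mul]
        · rw [(hLeq y hy (hμ y hy h0)).1]
      rw [Finset.sum_congr rfl this, ← Finset.sum_mul, hμ1, one_mul]
    have e2 : l x = c := by
      rw [← hμx, map_sum]
      have : ∀ y ∈ S, l (μ y • y) = μ y * c := by
        intro y hy
        rw [map_smul, smul_eq_mul]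
        by_cases h0 : μ y = 0
        · rw [h0, zero_mul, zero_mul]
        · rw [(hLeq y hy (hμ y hy h0)).2]
      rw [Finset.sum_congr rfl this, ← Finset.sum_mul, hμ1, one_mul]
    refine ⟨?_, e2⟩
    rw [hF]
    exact ⟨hxP, e1⟩

theorem dim_lt {F : Set V} (l : V →ₗ[ℝ] ℝ) (c : ℝ) (x z : V) (hx : x ∈ F) (hxl : l x = c) (hz : z ∈ F)
    (hzl : l z ≠ c) : dimSet {x | x ∈ F ∧ l x = c} < dimSet F := by
  rw [dimSet_eq, dimSet_eq]
  apply Submodule.finrank_lt_finrank_of_lt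
  refine lt_of_le_of_ne (vectorSpan_mono ℝ fun y hy => hy.1) fun heq => ?_
  have h1 : vectorSpan ℝ {x | x ∈ F ∧ l x = c} ≤ LinearMap.ker l := by
    rw [vectorSpan_def, Submodule.span_le]
    rintro _ ⟨a, ha, b, hb, rfl⟩
    show l (a - b) = 0
    rw [map_sub, ha.2, hb.2, sub_self]
  have h2 : z - x ∈ vectorSpan ℝ F := vsub_mem_vectorSpan ℝ hz hx
  rw [← heq] at h2
  have h3 : l (z - x) = 0 := h1 h2
  rw [map_sub, hxl, sub_eq_zero] at h3
  exact hzl h3

/-- If a direction of the affine hull leaves a convex set at once, then there is a supporting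
functional which is not constant on the set. -/
theorem exit {F : Set V} (hF : Convex ℝ F) (x y : V) (hx : x ∈ F) (hy : y ∈ vectorSpan ℝ F)
    (hout : ∀ ε : ℝ, 0 < ε → x + ε • y ∉ F) :
    ∃ l : V →ₗ[ℝ] ℝ, (∀ z ∈ F, l x ≤ l z) ∧ ∃ z ∈ F, l x < l z := by
  classical
  let W : Submodule ℝ V := vectorSpan ℝ F
  let F' : Set W := {u | (u : V) + x ∈ F}
  have hconv : Convex ℝ F' := by
    intro a ha b hb s t hs ht hst
    show ((s • a + t • b : W) : V) + x ∈ F
    have := hF ha hb hs ht hst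
    have e : ((s • a + t • b : W) : V) + x = s • ((a : V) + x) + t • ((b : V) + x) := by
      have hx1 : x = s • x + t • x := by rw [← add_smul, hst, one_smul]
      push_cast
      nth_rw 1 [hx1]
      module
    rw [e]
    exact this
  have h0 : (0 : W) ∈ F' := by
    show ((0 : W) : V) + x ∈ F
    simpa using hx
  have hspan : affineSpan ℝ F' = ⊤ := by
    rw [AffineSubspace.affineSpan_eq_top_iff_vectorSpan_eq_top_of_nonempty ℝ W W ⟨0, h0⟩]
    rw [vectorSpan_eq_span_vsub_set_right ℝ h0]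
    apply Submodule.map_injective_of_injective W.injective_subtype
    rw [Submodule.map_subtype_top, Submodule.map_span]
    have : W = Submodule.span ℝ ((· -ᵥ x) '' F) := vectorSpan_eq_span_vsub_set_right ℝ hx
    refine Eq.trans ?_ this.symm
    congr 1
    ext z
    constructor
    · rintro ⟨_, ⟨u, hu, rfl⟩, rfl⟩
      refine ⟨(u : V) + x, hu, ?_⟩
      simp
    · rintro ⟨u, hu, rfl⟩
      refine ⟨⟨u - x, vsub_mem_vectorSpan ℝ hu hx⟩, ⟨⟨u - x, vsub_mem_vectorSpan ℝ hu hx⟩, ?_, ?_⟩, ?_⟩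
      · show u - x + x ∈ F
        simpa using hu
      · simp
      · simp
  have hint : (interior F').Nonempty := hconv.interior_nonempty_iff_affineSpan_eq_top.2 hspan
  have hnot : (0 : W) ∉ interior F' := by
    intro hin
    rw [mem_interior_iff_mem_nhds] at hin
    have hc : Filter.Tendsto (fun ε : ℝ => ε • (⟨y, hy⟩ : W)) (nhdsWithin 0 (Set.Ioi 0)) (nhds 0) := by
      have : Filter.Tendsto (fun ε : ℝ => ε • (⟨y, hy⟩ : W)) (nhds 0) (nhds ((0 : ℝ) • (⟨y, hy⟩ : W))) :=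
        (continuous_id.smul continuous_const).tendsto 0
      rw [zero_smul] at this
      exact this.mono_left nhdsWithin_le_nhds
    have h1 := (hc.eventually hin).and self_mem_nhdsWithin
    obtain ⟨ε, h2, h3⟩ := h1.exists
    apply hout ε h3
    have h4 : (((ε • (⟨y, hy⟩ : W)) : W) : V) + x ∈ F := h2
    rw [add_comm]
    exact h4
  obtain ⟨f, hf⟩ := geometric_hahn_banach_open_point hconv.interior isOpen_interior hnot
  obtain ⟨l, hl⟩ := ((-f : W →L[ℝ] ℝ) : W →ₗ[ℝ] ℝ).exists_extend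
  have hl' : ∀ u : W, l u = - f u := fun u => by
    have := congrArg (fun g : W →ₗ[ℝ] ℝ => g u) hl
    exact this
  rw [map_zero] at hf
  refine ⟨l, ?_, ?_⟩
  · intro z hz
    have h1 : (⟨z - x, vsub_mem_vectorSpan ℝ hz hx⟩ : W) ∈ F' := by
      show z - x + x ∈ F
      simpa using hz
    have h2 := subset_closure h1
    rw [← hconv.closure_interior_eq_closure_of_nonempty_interior hint] at h2
    have h3 : closure (interior F') ⊆ {u | f u ≤ 0} :=
      closure_minimal (fun u hu => (hf u hu).le) (isClosed_le f.continuous continuous_const)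
    have h4 : f ⟨z - x, vsub_mem_vectorSpan ℝ hz hx⟩ ≤ 0 := h3 h2
    have h5 := hl' ⟨z - x, vsub_mem_vectorSpan ℝ hz hx⟩
    have h6 : l (z - x) = _ := h5
    rw [map_sub] at h6
    linarith
  · obtain ⟨u, hu⟩ := hint
    have h0 : u ∈ F' := interior_subset hu
    have h1 : (u : V) + x ∈ F := h0
    refine ⟨(u : V) + x, h1, ?_⟩
    rw [map_add, hl' u]
    have := hf u hu
    linarith

end Pool.Agent.H33.TV
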