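import Pool.Agent.H33.TV.Sys

set_option autoImplicit false
set_option linter.unusedSectionVars false

/-!
The statements for linear maps on a polytope.
-/

namespace Pool.Agent.H33.TV

variable {V : Type} [NormedAddCommGroup V] [InnerProductSpace ℝ V] [FiniteDimensional ℝ V]

theorem IsLinearOn.ext {W : Type} [AddCommGroup W] [Module ℝ W] {P : Set V} {f : P → W}
    (hf : IsLinearOn P f) : ∃ G : V →ᵃ[ℝ] W, ∀ x : P, f x = G x := by
  obtain ⟨hne, g, hg⟩ := hf
  obtain ⟨x0⟩ := id hne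
  obtain ⟨L, hL⟩ := g.linear.exists_extend
  refine ⟨L.toAffineMap + AffineMap.const ℝ V (g x0 - L x0), fun x => ?_⟩
  obtain ⟨x, hx⟩ := x
  rw [hg x hx]
  have h1 := g.map_vadd x0 ((⟨x, subset_affineSpan ℝ P hx⟩ : affineSpan ℝ P) -ᵥ x0)
  rw [vsub_vadd] at h1
  rw [h1]
  have h2 : g.linear ((⟨x, subset_affineSpan ℝ P hx⟩ : affineSpan ℝ P) -ᵥ x0) = L (x - x0) := by
    rw [← hL]
    rfl
  rw [h2, map_sub]
  show L x - L x0 + g x0 = L x + (g x0 - L x0)
  abel

/-- The weights version for maps on `P`. -/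
theorem weights (n r : ℕ) (hr : 2 ≤ r) (P : Set V) (hP : IsPolytope P) (hn : n ≤ dimSet P)
    (f : Fin r → P → EuclideanSpace ℝ (Fin n)) (hf : ∀ j, IsLinearOn P (f j))
    (h0 : ∀ x, ∑ j, f j x = 0) :
    ∃ (w : Fin r → ℝ) (F : Fin r → Set V) (x : Fin r → P), (∀ j, 0 ≤ w j) ∧ ∑ j, w j = 1 ∧
      (∀ j, w j ≠ 0 → IsFace P (F j) ∧ (x j : V) ∈ F j) ∧ (∀ j, w j = 0 → F j = ∅) ∧
      (∀ i j, i ≠ j → Disjoint (F i) (F j)) ∧ ∑ j, w j • f j (x j) = 0 := by
  classical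
  have hex := fun j => (hf j).ext
  choose G hG using hex
  have hcard : Fintype.card (Fin n) ≤ dimSet P := by simpa using hn
  obtain ⟨w, F, x, h1, h2, h3, h4, h5, h6⟩ := exists_weights hr hP hcard
    (fun k j => (EuclideanSpace.proj (𝕜 := ℝ) k).toLinearMap.toAffineMap.comp (G j)) (by
    intro k y hy
    have := congrArg (fun z : EuclideanSpace ℝ (Fin n) => z k) (h0 ⟨y, hy⟩)
    simp only [hG] at this
    rw [Pool.Agent.Helper326_TP.J_core.euc_sum] at this
    exact this)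
  have hsub : ∀ j, w j ≠ 0 → x j ∈ P := by
    intro j hj
    obtain ⟨hF, hx⟩ := h3 j hj
    obtain ⟨-, l, c, -, hF'⟩ := (isFace_iff _ _).1 hF
    rw [hF'] at hx
    exact hx.1
  obtain ⟨j0, hj0⟩ : ∃ j, w j ≠ 0 := by
    by_contra hcon
    push Not at hcon
    rw [Finset.sum_eq_zero (fun j _ => hcon j)] at h2
    exact zero_ne_one h2
  refine ⟨w, F, fun j => if h : w j = 0 then ⟨x j0, hsub j0 hj0⟩ else ⟨x j, hsub j h⟩, h1, h2, ?_,
    h4, h5, ?_⟩
  · intro j hj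
    simp only [dif_neg hj]
    exact h3 j hj
  · ext k
    rw [Pool.Agent.Helper326_TP.J_core.euc_sum]
    refine Eq.trans (Finset.sum_congr rfl fun j _ => ?_) (h6 k)
    by_cases hj : w j = 0
    · rw [hj]
      simp
    · simp only [dif_neg hj]
      rw [hG]
      rfl

/-- Balanced families of linear maps. -/
theorem balanced (n r : ℕ) (hr : 2 ≤ r) (P : Set V) (hP : IsPolytope P) (hn : n + r ≤ dimSet P + 1)
    (f : Fin r → P → EuclideanSpace ℝ (Fin n)) (hf : ∀ j, IsLinearOn P (f j))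
    (h0 : ∀ x, ∑ j, f j x = 0) :
    ∃ (F : Fin r → Set V) (x : Fin r → P), (∀ j, IsFace P (F j)) ∧
      (∀ i j, i ≠ j → Disjoint (F i) (F j)) ∧ (∀ j, (x j : V) ∈ F j) ∧ ∑ j, f j (x j) = 0 ∧
      ∑ j, dimSet (F j) ≤ n := by
  classical
  have hex := fun j => (hf j).ext
  choose G hG using hex
  have hcard : Fintype.card (Fin n) + r ≤ dimSet P + 1 := by simpa using hn
  obtain ⟨F, x, ⟨h1, h2, h3, h4⟩, h5⟩ := exists_sol_dim hr hP hcard
    (fun k j => (EuclideanSpace.proj (𝕜 := ℝ) k).toLinearMap.toAffineMap.comp (G j)) (by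
    intro k y hy
    have := congrArg (fun z : EuclideanSpace ℝ (Fin n) => z k) (h0 ⟨y, hy⟩)
    simp only [hG] at this
    rw [Pool.Agent.Helper326_TP.J_core.euc_sum] at this
    exact this)
  have hsub : ∀ j, x j ∈ P := by
    intro j
    obtain ⟨-, l, c, -, hF'⟩ := (isFace_iff _ _).1 (h1 j)
    have hx := h3 j
    rw [hF'] at hx
    exact hx.1
  refine ⟨F, fun j => ⟨x j, hsub j⟩, h1, h2, h3, ?_, by simpa using h5⟩
  ext k
  rw [Pool.Agent.Helper326_TP.J_core.euc_sum]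
  refine Eq.trans (Finset.sum_congr rfl fun j _ => ?_) (h4 k)
  rw [hG]
  rfl

/-- Different maps for different pairs. -/
theorem graph (r q : ℕ) (hr : 2 ≤ r) (P : Set V) (hP : IsPolytope P) (a b : Fin q → Fin r)
    (d : Fin q → ℕ) (hn : ∑ e, d e + r ≤ dimSet P + 1)
    (f : ∀ e : Fin q, P → EuclideanSpace ℝ (Fin (d e))) (hf : ∀ e, IsLinearOn P (f e)) :
    ∃ (F : Fin r → Set V) (x : Fin r → P), (∀ j, IsFace P (F j)) ∧
      (∀ i j, i ≠ j → Disjoint (F i) (F j)) ∧ (∀ j, (x j : V) ∈ F j) ∧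
      (∀ e, f e (x (a e)) = f e (x (b e))) ∧ ∑ j, dimSet (F j) ≤ ∑ e, d e := by
  classical
  have hex := fun e => (hf e).ext
  choose G hG using hex
  have hcard : Fintype.card (Σ e : Fin q, Fin (d e)) + r ≤ dimSet P + 1 := by
    rw [Fintype.card_sigma]
    simpa using hn
  obtain ⟨F, x, ⟨h1, h2, h3, h4⟩, h5⟩ := exists_sol_dim hr hP hcard
    (fun k j => ((if j = a k.1 then (1 : ℝ) else 0) - (if j = b k.1 then 1 else 0)) •
      (EuclideanSpace.proj (𝕜 := ℝ) k.2).toLinearMap.toAffineMap.comp (G k.1)) (by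
    intro k y hy
    simp only [AffineMap.coe_smul, Pi.smul_apply, smul_eq_mul, ← Finset.sum_mul,
      Finset.sum_sub_distrib]
    simp)
  have hsub : ∀ j, x j ∈ P := by
    intro j
    obtain ⟨-, l, c, -, hF'⟩ := (isFace_iff _ _).1 (h1 j)
    have hx := h3 j
    rw [hF'] at hx
    exact hx.1
  refine ⟨F, fun j => ⟨x j, hsub j⟩, h1, h2, h3, ?_, ?_⟩
  · intro e
    ext k
    have h6 := h4 ⟨e, k⟩
    simp only [AffineMap.coe_smul, Pi.smul_apply, smul_eq_mul, sub_mul, Finset.sum_sub_distrib,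
      ite_mul, one_mul, zero_mul, Finset.sum_ite_eq', Finset.mem_univ, if_true] at h6
    rw [hG, hG]
    exact sub_eq_zero.1 h6
  · refine h5.trans ?_
    rw [Fintype.card_sigma]
    simp

/-- The linear Tverberg theorem for polytopes with a bound for the dimensions of the faces. -/
theorem tverberg (d r : ℕ) (hr : 2 ≤ r) (P : Set V) (hP : IsPolytope P)
    (hm : (d + 1) * (r - 1) ≤ dimSet P) (f : P → EuclideanSpace ℝ (Fin d)) (hf : IsLinearOn P f) :
    ∃ F : Fin r → Set V, (∀ j, IsFace P (F j)) ∧ (∀ i j, i ≠ j → Disjoint (F i) (F j)) ∧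
      (⋂ j, f '' {x : P | (x : V) ∈ F j}).Nonempty ∧ ∑ j, dimSet (F j) ≤ d * (r - 1) := by
  classical
  obtain ⟨s, rfl⟩ : ∃ s, r = s + 1 := ⟨r - 1, by omega⟩
  have hn : ∑ _e : Fin s, d + (s + 1) ≤ dimSet P + 1 := by
    rw [Finset.sum_const, Finset.card_univ, Fintype.card_fin, smul_eq_mul]
    have : s + 1 - 1 = s := by omega
    rw [this] at hm
    nlinarith
  obtain ⟨F, x, h1, h2, h3, h4, h5⟩ := graph (s + 1) s hr P hP (fun _ => 0) (fun e => e.succ)
    (fun _ => d) hn (fun _ => f) (fun _ => hf)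
  refine ⟨F, h1, h2, ⟨f (x 0), ?_⟩, ?_⟩
  · rw [Set.mem_iInter]
    intro j
    refine ⟨x j, h3 j, ?_⟩
    refine Fin.cases rfl (fun e => ?_) j
    exact (h4 e).symm
  · refine h5.trans (le_of_eq ?_)
    rw [Finset.sum_const, Finset.card_univ, Fintype.card_fin, smul_eq_mul, mul_comm]
    congr 1

end Pool.Agent.H33.TV
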