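import Pool.Agent.H33.TV.Core

set_option autoImplicit false

/-!
Balanced systems of affine functions on a polytope.
-/

namespace Pool.Agent.H33.TV

/-- A polytope: the convex hull of finitely many points (at least one). -/
def IsPolytope {V : Type} [AddCommGroup V] [Module ℝ V] (P : Set V) : Prop :=
  ∃ S : Finset V, S.Nonempty ∧ P = convexHull ℝ (S : Set V)

/-- The dimension of a set: the dimension of its affine hull. -/
noncomputable def dimSet {V : Type} [AddCommGroup V] [Module ℝ V] (P : Set V) : ℕ :=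
  Module.finrank ℝ (affineSpan ℝ P).direction

/-- Linear maps on `P`: the restrictions to `P` of the affine maps from the affine hull of `P` to `W`. -/
def IsLinearOn {V W : Type} [AddCommGroup V] [Module ℝ V] [AddCommGroup W] [Module ℝ W] (P : Set V)
    (f : P → W) : Prop :=
  ∃ _ : Nonempty (affineSpan ℝ P), ∃ g : affineSpan ℝ P →ᵃ[ℝ] W,
    ∀ (x : V) (hx : x ∈ P), f ⟨x, hx⟩ = g ⟨x, subset_affineSpan ℝ P hx⟩

/-- The nonempty faces of `P`: `P` itself and the nonempty intersections of `P` with its supporting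
hyperplanes. -/
def IsFace {V : Type} [AddCommGroup V] [Module ℝ V] (P F : Set V) : Prop :=
  F.Nonempty ∧ (F = P ∨ ∃ (l : V →ₗ[ℝ] ℝ) (c : ℝ), l ≠ 0 ∧ (∀ x ∈ P, c ≤ l x) ∧
    F = {x | x ∈ P ∧ l x = c})

/-- The points of `S`, seen from `x0`, affinely span the direction of their affine hull. -/
theorem span_top {V : Type} [NormedAddCommGroup V] [InnerProductSpace ℝ V] (S : Finset V) (x0 : V)
    (hx0 : x0 ∈ S) (W : Submodule ℝ V) (hW : vectorSpan ℝ (S : Set V) = W) (p : S → W)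
    (hp : ∀ v : S, (p v : V) = (v : V) - x0) : affineSpan ℝ (Set.range p) = ⊤ := by
  classical
  have : Nonempty S := ⟨⟨x0, hx0⟩⟩
  rw [AffineSubspace.affineSpan_eq_top_iff_vectorSpan_eq_top_of_nonempty ℝ W W (Set.range_nonempty p)]
  rw [vectorSpan_range_eq_span_range_vsub_right ℝ p ⟨x0, hx0⟩]
  apply Submodule.map_injective_of_injective W.injective_subtype
  rw [Submodule.map_subtype_top, Submodule.map_span]
  refine Eq.trans ?_ hW
  rw [vectorSpan_eq_span_vsub_set_right ℝ (show x0 ∈ (S : Set V) from hx0)]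
  congr 1
  ext y
  constructor
  · rintro ⟨_, ⟨v, rfl⟩, rfl⟩
    refine ⟨v, v.2, ?_⟩
    simp [hp]
  · rintro ⟨v, hv, rfl⟩
    refine ⟨_, ⟨⟨v, hv⟩, rfl⟩, ?_⟩
    simp [hp]

/-- Affine maps commute with affine combinations. -/
theorem aff_sum {V U : Type} [AddCommGroup V] [Module ℝ V] [AddCommGroup U] [Module ℝ U] {ι : Type} [Fintype ι]
    (f : V →ᵃ[ℝ] U) (p : ι → V) (w : ι → ℝ) (hw : ∑ v, w v = 1) :
    f (∑ v, w v • p v) = ∑ v, w v • f (p v) := by
  have h : ∀ y, f y = f.linear y + f 0 := by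
    intro y
    have := f.map_vadd 0 y
    simpa using this
  rw [h, map_sum]
  simp_rw [h (p _), smul_add, Finset.sum_add_distrib, ← Finset.sum_smul, hw, one_smul, map_smul]

variable {V : Type} [NormedAddCommGroup V] [InnerProductSpace ℝ V] [FiniteDimensional ℝ V]

theorem poly {κ : Type} [Fintype κ] (S : Finset V) (hS : S.Nonempty) {r : ℕ} (hr : 2 ≤ r)
    (hn : Fintype.card κ ≤ Module.finrank ℝ (vectorSpan ℝ (S : Set V)))
    (U : κ → Fin r → (V →ᵃ[ℝ] ℝ)) (hU : ∀ k, ∀ v ∈ S, ∑ j, U k j v = 0) :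
    ∃ (l : Fin r → (V →ₗ[ℝ] ℝ)) (c : Fin r → ℝ) (w : Fin r → S → ℝ),
      (∀ j, ∀ v ∈ S, c j ≤ l j v) ∧ (∀ j v, 0 ≤ w j v) ∧ (∑ j, ∑ v, w j v = 1) ∧
      (∀ j v, w j v ≠ 0 → l j v = c j) ∧
      (∀ v ∈ S, ∀ i j, i ≠ j → ¬ (l i v = c i ∧ l j v = c j)) ∧
      ∀ k, ∑ j, ∑ v, w j v * U k j v = 0 := by
  classical
  obtain ⟨x0, hx0⟩ := hS
  obtain ⟨W, hW⟩ : ∃ W, W = vectorSpan ℝ (S : Set V) := ⟨_, rfl⟩
  rw [← hW] at hn
  have hmem : ∀ x ∈ S, x - x0 ∈ W := fun x hx => by
    rw [hW]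
    exact vsub_mem_vectorSpan ℝ hx hx0
  let p : S → W := fun v => ⟨(v : V) - x0, hmem _ v.2⟩
  have : Nonempty S := ⟨⟨x0, hx0⟩⟩
  have hp : affineSpan ℝ (Set.range p) = ⊤ := span_top S x0 hx0 W hW.symm p (fun v => rfl)
  let e : W →ᵃ[ℝ] V := W.subtype.toAffineMap + AffineMap.const ℝ W x0
  have he : ∀ v : S, e (p v) = v := by
    intro v
    show ((v : V) - x0) + x0 = v
    abel
  obtain ⟨g, ψ, w, h1, h2, h3, h4, h5, h6⟩ := core p hp hr hn (fun k j => (U k j).comp e) (by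
    intro k v
    simp only [AffineMap.comp_apply, he]
    exact hU k v v.2)
  have hex : ∀ j, ∃ l : V →ₗ[ℝ] ℝ, l ∘ₗ W.subtype = (g j).linear :=
    fun j => (g j).linear.exists_extend
  choose l hl using hex
  have key : ∀ j (v : S), g j (p v) = l j v - l j x0 + g j 0 := by
    intro j v
    have e1 := (g j).map_vadd 0 (p v)
    have e2 : (g j).linear (p v) = l j ((v : V) - x0) := by rw [← hl j]; rfl
    rw [e2, map_sub] at e1
    simpa using e1
  refine ⟨l, fun j => ψ + l j x0 - g j 0, w, ?_, h2, h3, ?_, ?_, ?_⟩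
  · intro j v hv
    have := h1 j ⟨v, hv⟩
    rw [key] at this
    show ψ + l j x0 - g j 0 ≤ l j v
    have e2 : ((⟨v, hv⟩ : S) : V) = v := rfl
    rw [e2] at this
    linarith
  · intro j v hw
    have := h4 j v hw
    rw [key] at this
    show l j v = ψ + l j x0 - g j 0
    linarith
  · rintro v hv i j hij ⟨hi, hj⟩
    refine h5 ⟨v, hv⟩ i j hij ⟨?_, ?_⟩
    · rw [key]
      show l i v - l i x0 + g i 0 = ψ
      rw [hi]
      ring
    · rw [key]
      show l j v - l j x0 + g j 0 = ψ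
      rw [hj]
      ring
  · intro k
    have := h6 k
    simp only [AffineMap.comp_apply, he] at this
    exact this

end Pool.Agent.H33.TV
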