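import Pool.Agent.H33.TV.Main

set_option autoImplicit false
set_option linter.unusedSectionVars false

/-!
The bound for the number of equations is best possible.
-/

namespace Pool.Agent.H33.TV

/-- the vertices of the simplex -/
noncomputable def vx (m : ℕ) (o : Option (Fin m)) : EuclideanSpace ℝ (Fin m) :=
  o.elim 0 (fun i => EuclideanSpace.single i (1 : ℝ))

theorem vx_nonneg {m : ℕ} (o : Option (Fin m)) (k : Fin m) : 0 ≤ vx m o k := by
  rcases o with _ | i
  · exact le_rfl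
  · show 0 ≤ (EuclideanSpace.single i (1 : ℝ) : EuclideanSpace ℝ (Fin m)) k
    rw [PiLp.single_apply]
    split_ifs <;> norm_num

theorem vx_ne {m : ℕ} (o : Option (Fin m)) (k : Fin m) (h : vx m o k ≠ 0) : o = some k := by
  rcases o with _ | i
  · exact absurd rfl h
  · have h1 : (EuclideanSpace.single i (1 : ℝ) : EuclideanSpace ℝ (Fin m)) k ≠ 0 := h
    rw [PiLp.single_apply] at h1
    by_cases hik : k = i
    · rw [hik]
    · exact absurd (if_neg hik) h1

theorem vx_self {m : ℕ} (k : Fin m) : vx m (some k) k = 1 := by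
  show (EuclideanSpace.single k (1 : ℝ) : EuclideanSpace ℝ (Fin m)) k = 1
  rw [PiLp.single_apply, if_pos rfl]

open Classical in
/-- the vertex set -/
noncomputable def SS (m : ℕ) : Finset (EuclideanSpace ℝ (Fin m)) := Finset.univ.image (vx m)

theorem mem_SS {m : ℕ} (y : EuclideanSpace ℝ (Fin m)) (hy : y ∈ SS m) : ∃ o, vx m o = y := by
  classical
  obtain ⟨o, -, ho⟩ := Finset.mem_image.1 hy
  exact ⟨o, ho⟩

theorem vx_mem {m : ℕ} (o : Option (Fin m)) : vx m o ∈ SS m := by
  classical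
  exact Finset.mem_image_of_mem _ (Finset.mem_univ _)

/-- the simplex -/
noncomputable def PP (m : ℕ) : Set (EuclideanSpace ℝ (Fin m)) := convexHull ℝ (SS m : Set _)

theorem PP_polytope (m : ℕ) : IsPolytope (PP m) := ⟨SS m, ⟨_, vx_mem none⟩, rfl⟩

theorem vx_PP {m : ℕ} (o : Option (Fin m)) : vx m o ∈ PP m := subset_convexHull ℝ _ (vx_mem o)

theorem PP_dim (m : ℕ) : dimSet (PP m) = m := by
  rw [dimSet_eq]
  have htop : vectorSpan ℝ (PP m) = ⊤ := by
    rw [Submodule.eq_top_iff']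
    intro v
    have hv : v = ∑ i, v i • vx m (some i) := by
      ext k
      rw [Pool.Agent.Helper326_TP.J_core.euc_sum, Finset.sum_eq_single k]
      · rw [PiLp.smul_apply, vx_self, smul_eq_mul, mul_one]
      · intro i _ hik
        rw [PiLp.smul_apply, smul_eq_mul]
        by_cases h0 : vx m (some i) k = 0
        · rw [h0, mul_zero]
        · have := vx_ne _ _ h0
          exact absurd (Option.some.inj this) hik
      · intro h
        exact absurd (Finset.mem_univ _) h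
    rw [hv]
    refine Submodule.sum_mem _ fun i _ => Submodule.smul_mem _ _ ?_
    have := vsub_mem_vectorSpan ℝ (vx_PP (some i)) (vx_PP (m := m) none)
    have e : vx m (some i) -ᵥ vx m none = vx m (some i) := by
      show vx m (some i) - 0 = vx m (some i)
      exact sub_zero _
    rwa [e] at this
  rw [htop, finrank_top, finrank_euclideanSpace, Fintype.card_fin]

/-- A face which contains a point with a positive coordinate contains the vertex. -/
theorem face_vx {m : ℕ} {F : Set (EuclideanSpace ℝ (Fin m))} (hF : IsFace (PP m) F)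
    (x : EuclideanSpace ℝ (Fin m)) (hx : x ∈ F) (k : Fin m) (hk : x k ≠ 0) : vx m (some k) ∈ F := by
  obtain ⟨-, l, c, h1, h2⟩ := (isFace_iff _ _).1 hF
  rw [h2] at hx
  obtain ⟨μ, hμ0, hμ1, hμx, hμ⟩ := hull_face (SS m) l c (fun v hv => h1 v (subset_convexHull ℝ _ hv))
    x hx.1 hx.2
  have h3 : ∑ y ∈ SS m, μ y * y k = x k := by
    rw [← hμx, Pool.Agent.Helper326_TP.J_core.euc_sum]
    rfl
  obtain ⟨y, hy, hyk⟩ := Finset.exists_ne_zero_of_sum_ne_zero (h3.trans_ne hk)
  obtain ⟨o, rfl⟩ := mem_SS y hy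
  have ho := vx_ne o k (right_ne_zero_of_mul hyk)
  rw [ho] at hyk hy
  rw [h2]
  exact ⟨vx_PP _, hμ _ hy (left_ne_zero_of_mul hyk)⟩

/-- A face contains a vertex for which the coordinate of a given point is positive, or the origin. -/
theorem face_exists {m : ℕ} {F : Set (EuclideanSpace ℝ (Fin m))} (hF : IsFace (PP m) F)
    (x : EuclideanSpace ℝ (Fin m)) (hx : x ∈ F) :
    ∃ o : Option (Fin m), vx m o ∈ F ∧ ∀ k, o = some k → x k ≠ 0 := by
  obtain ⟨-, l, c, h1, h2⟩ := (isFace_iff _ _).1 hF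
  rw [h2] at hx
  obtain ⟨μ, hμ0, hμ1, hμx, hμ⟩ := hull_face (SS m) l c (fun v hv => h1 v (subset_convexHull ℝ _ hv))
    x hx.1 hx.2
  obtain ⟨y, hy, hμy⟩ := exists_weight _ μ hμ1
  obtain ⟨o, rfl⟩ := mem_SS y hy
  refine ⟨o, ?_, ?_⟩
  · rw [h2]
    exact ⟨vx_PP _, hμ _ hy hμy⟩
  · rintro k rfl
    have h3 : ∑ y ∈ SS m, μ y * y k = x k := by
      rw [← hμx, Pool.Agent.Helper326_TP.J_core.euc_sum]
      rfl
    have h4 : μ (vx m (some k)) * vx m (some k) k ≤ ∑ y ∈ SS m, μ y * y k := by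
      refine Finset.single_le_sum (f := fun y : EuclideanSpace ℝ (Fin m) => μ y * y k)
        (fun y hy => ?_) hy
      obtain ⟨o, rfl⟩ := mem_SS y hy
      exact mul_nonneg (hμ0 _ hy) (vx_nonneg _ _)
    rw [vx_self, mul_one, h3] at h4
    have h5 : 0 < μ (vx m (some k)) := lt_of_le_of_ne (hμ0 _ hy) (Ne.symm hμy)
    exact (h5.trans_le h4).ne'

/-- the factors -/
noncomputable def bb (r : ℕ) (j : Fin r) : ℝ := if (j : ℕ) = 0 then 1 - (r : ℝ) else 1

theorem bb_ne (r : ℕ) (hr : 2 ≤ r) (j : Fin r) : bb r j ≠ 0 := by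
  unfold bb
  have : (2 : ℝ) ≤ r := by exact_mod_cast hr
  split_ifs
  · intro h
    linarith
  · exact one_ne_zero

theorem bb_sum (r : ℕ) (hr : 2 ≤ r) : ∑ j, bb r j = 0 := by
  obtain ⟨s, rfl⟩ : ∃ s, r = s + 1 := ⟨r - 1, by omega⟩
  rw [Fin.sum_univ_succ]
  simp [bb]

/-- the first `n` coordinates, followed by zeros -/
noncomputable def pr (n m : ℕ) : EuclideanSpace ℝ (Fin m) →ₗ[ℝ] EuclideanSpace ℝ (Fin n) where
  toFun x := WithLp.toLp 2 (fun k => if h : (k : ℕ) < m then x ⟨k, h⟩ else 0)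
  map_add' a b := by
    ext k
    show (if h : (k : ℕ) < m then (a + b) ⟨k, h⟩ else 0) =
      (if h : (k : ℕ) < m then a ⟨k, h⟩ else 0) + (if h : (k : ℕ) < m then b ⟨k, h⟩ else 0)
    split_ifs with h
    · rfl
    · rw [add_zero]
  map_smul' c a := by
    ext k
    show (if h : (k : ℕ) < m then (c • a) ⟨k, h⟩ else 0) =
      c * (if h : (k : ℕ) < m then a ⟨k, h⟩ else 0)
    split_ifs with h
    · rfl
    · rw [mul_zero]

theorem pr_apply (n m : ℕ) (x : EuclideanSpace ℝ (Fin m)) (k : ℕ) (hn : k < n) (hm : k < m) :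
    pr n m x ⟨k, hn⟩ = x ⟨k, hm⟩ := by
  show (if h : k < m then x ⟨k, h⟩ else 0) = x ⟨k, hm⟩
  rw [dif_pos hm]

/-- The restriction of an affine map is a linear map on `P`. -/
theorem isLinearOn_of {V W : Type} [AddCommGroup V] [Module ℝ V] [AddCommGroup W] [Module ℝ W]
    (P : Set V) (hP : P.Nonempty) (G : V →ᵃ[ℝ] W) : IsLinearOn P (fun x : P => G x) := by
  obtain ⟨x0, hx0⟩ := hP
  have : Nonempty (affineSpan ℝ P) := ⟨⟨x0, subset_affineSpan ℝ P hx0⟩⟩
  exact ⟨inferInstance, G.comp (affineSpan ℝ P).subtype, fun x hx => rfl⟩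

/-- the maps of the example -/
noncomputable def ff (n m r : ℕ) (j : Fin r) (x : PP m) : EuclideanSpace ℝ (Fin n) :=
  bb r j • pr n m x

theorem ff_linear (n m r : ℕ) (j : Fin r) : IsLinearOn (PP m) (ff n m r j) :=
  isLinearOn_of (PP m) ⟨_, vx_PP none⟩ (bb r j • (pr n m).toAffineMap)

theorem ff_sum (n m r : ℕ) (hr : 2 ≤ r) (x : PP m) : ∑ j, ff n m r j x = 0 := by
  show ∑ j, bb r j • pr n m x = 0
  rw [← Finset.sum_smul, bb_sum _ hr, zero_smul]

theorem sharp (n m r : ℕ) (hr : 2 ≤ r) (h : m + 1 < n + r) :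
    ¬ ∃ (F : Fin r → Set (EuclideanSpace ℝ (Fin m))) (x : Fin r → PP m),
        (∀ j, IsFace (PP m) (F j)) ∧ (∀ i j, i ≠ j → Disjoint (F i) (F j)) ∧
        (∀ j, (x j : EuclideanSpace ℝ (Fin m)) ∈ F j) ∧ ∑ j, ff n m r j (x j) = 0 := by
  classical
  rintro ⟨F, x, hF, hdisj, hx, h0⟩
  -- the first `n` coordinates vanish
  have hz : ∀ (j : Fin r) (k : Fin m), (k : ℕ) < n → (x j : EuclideanSpace ℝ (Fin m)) k = 0 := by
    intro j k hkn
    by_contra hjk
    have h1 : ∀ i, i ≠ j → (x i : EuclideanSpace ℝ (Fin m)) k = 0 := by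
      intro i hij
      by_contra hik
      exact Set.disjoint_left.1 (hdisj i j hij) (face_vx (hF i) _ (hx i) _ hik)
        (face_vx (hF j) _ (hx j) _ hjk)
    have h2 := congrArg (fun z : EuclideanSpace ℝ (Fin n) => z ⟨k, hkn⟩) h0
    simp only [Pool.Agent.Helper326_TP.J_core.euc_sum] at h2
    have h3 : ∀ i, ff n m r i (x i) ⟨k, hkn⟩ = bb r i * (x i : EuclideanSpace ℝ (Fin m)) k := by
      intro i
      show (bb r i • pr n m (x i)) ⟨k, hkn⟩ = _
      rw [PiLp.smul_apply, pr_apply _ _ _ _ _ k.2, smul_eq_mul]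
    rw [Finset.sum_eq_single j] at h2
    · rw [h3] at h2
      exact mul_ne_zero (bb_ne _ hr j) hjk h2
    · intro i _ hij
      rw [h3, h1 i hij, mul_zero]
    · intro h
      exact absurd (Finset.mem_univ _) h
  -- one vertex for each label
  have hex := fun j => face_exists (hF j) _ (hx j)
  choose o ho hok using hex
  have hge : ∀ j k, o j = some k → n ≤ (k : ℕ) := by
    intro j k hjk
    by_contra hlt
    exact hok j k hjk (hz j k (not_le.1 hlt))
  let code : Option (Fin m) → ℕ := fun t => t.elim 0 (fun k => (k : ℕ) - n + 1)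
  have hcode : ∀ j, code (o j) < m - n + 1 := by
    intro j
    rcases hoj : o j with _ | k
    · exact Nat.succ_pos _
    · have := hge j k hoj
      have := k.2
      show (k : ℕ) - n + 1 < m - n + 1
      omega
  have hinj : ∀ i j, code (o i) = code (o j) → o i = o j := by
    intro i j hij
    rcases hoi : o i with _ | k <;> rcases hoj : o j with _ | k'
    · rfl
    · rw [hoi, hoj] at hij
      exact absurd hij (Nat.succ_ne_zero _).symm
    · rw [hoi, hoj] at hij
      exact absurd hij (Nat.succ_ne_zero _)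
    · rw [hoi, hoj] at hij
      have h1 := hge i k hoi
      have h2 := hge j k' hoj
      have h3 : (k : ℕ) - n + 1 = (k' : ℕ) - n + 1 := hij
      congr 1
      apply Fin.ext
      omega
  obtain ⟨i, j, hij, htij⟩ := Fintype.exists_ne_map_eq_of_card_lt
    (fun j => (⟨code (o j), hcode j⟩ : Fin (m - n + 1))) (by
      rw [Fintype.card_fin, Fintype.card_fin]
      omega)
  have h3 : o i = o j := hinj i j (congrArg Fin.val htij)
  have h4 := ho i
  rw [h3] at h4
  exact Set.disjoint_left.1 (hdisj i j hij) h4 (ho j)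

/-- the barycentric coordinates, followed by zeros -/
noncomputable def bc (n m : ℕ) : EuclideanSpace ℝ (Fin m) →ᵃ[ℝ] EuclideanSpace ℝ (Fin n) :=
  (pr n m).toAffineMap +
    ((LinearMap.toSpanSingleton ℝ (EuclideanSpace ℝ (Fin n)) (WithLp.toLp 2 (fun k =>
      if (k : ℕ) = m then (1 : ℝ) else 0))).toAffineMap.comp
      (AffineMap.const ℝ (EuclideanSpace ℝ (Fin m)) (1 : ℝ) -
        ∑ i, (EuclideanSpace.proj (𝕜 := ℝ) i).toLinearMap.toAffineMap))

theorem bc_apply (n m : ℕ) (x : EuclideanSpace ℝ (Fin m)) (k : Fin n) :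
    bc n m x k = pr n m x k + (1 - ∑ i, x i) * (if (k : ℕ) = m then (1 : ℝ) else 0) := by
  have h : (∑ i, (EuclideanSpace.proj (𝕜 := ℝ) i).toLinearMap.toAffineMap :
      EuclideanSpace ℝ (Fin m) →ᵃ[ℝ] ℝ) x = ∑ i, x i := by
    rw [Pool.Agent.Helper326_TP.J_core.sum_apply]
    rfl
  show pr n m x k + (1 - (∑ i, (EuclideanSpace.proj (𝕜 := ℝ) i).toLinearMap.toAffineMap :
      EuclideanSpace ℝ (Fin m) →ᵃ[ℝ] ℝ) x) * (if (k : ℕ) = m then (1 : ℝ) else 0) = _
  rw [h]

/-- the maps of the example -/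
noncomputable def gg (n m r : ℕ) (j : Fin r) (x : PP m) : EuclideanSpace ℝ (Fin n) :=
  bb r j • bc n m x

theorem gg_linear (n m r : ℕ) (j : Fin r) : IsLinearOn (PP m) (gg n m r j) :=
  isLinearOn_of (PP m) ⟨_, vx_PP none⟩ (bb r j • bc n m)

theorem gg_sum (n m r : ℕ) (hr : 2 ≤ r) (x : PP m) : ∑ j, gg n m r j x = 0 := by
  show ∑ j, bb r j • bc n m x = 0
  rw [← Finset.sum_smul, bb_sum _ hr, zero_smul]

theorem sharp_weights (n m r : ℕ) (hr : 2 ≤ r) (h : m < n) :
    ¬ ∃ (w : Fin r → ℝ) (F : Fin r → Set (EuclideanSpace ℝ (Fin m))) (x : Fin r → PP m),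
        (∀ j, 0 ≤ w j) ∧ ∑ j, w j = 1 ∧
        (∀ j, w j ≠ 0 → IsFace (PP m) (F j) ∧ (x j : EuclideanSpace ℝ (Fin m)) ∈ F j) ∧
        (∀ j, w j = 0 → F j = ∅) ∧ (∀ i j, i ≠ j → Disjoint (F i) (F j)) ∧
        ∑ j, w j • gg n m r j (x j) = 0 := by
  classical
  rintro ⟨w, F, x, -, hw1, hF, -, hdisj, h0⟩
  have hval : ∀ (i : Fin r) (k : Fin n), (w i • gg n m r i (x i)) k =
      w i * (bb r i * bc n m (x i) k) := fun i k => rfl
  -- the coordinates vanish
  have hz : ∀ (j : Fin r), w j ≠ 0 → ∀ (k : Fin m), (x j : EuclideanSpace ℝ (Fin m)) k = 0 := by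
    intro j hj k
    by_contra hjk
    have hkn : (k : ℕ) < n := k.2.trans h
    have h1 : ∀ i, i ≠ j → w i ≠ 0 → (x i : EuclideanSpace ℝ (Fin m)) k = 0 := by
      intro i hij hi
      by_contra hik
      exact Set.disjoint_left.1 (hdisj i j hij) (face_vx (hF i hi).1 _ (hF i hi).2 _ hik)
        (face_vx (hF j hj).1 _ (hF j hj).2 _ hjk)
    have h2 := congrArg (fun z : EuclideanSpace ℝ (Fin n) => z ⟨k, hkn⟩) h0
    simp only [Pool.Agent.Helper326_TP.J_core.euc_sum, hval] at h2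
    have h3 : ∀ i, bc n m (x i) ⟨k, hkn⟩ = (x i : EuclideanSpace ℝ (Fin m)) k := by
      intro i
      rw [bc_apply, pr_apply _ _ _ _ _ k.2, if_neg (by exact k.2.ne), mul_zero, add_zero]
    simp only [h3] at h2
    rw [Finset.sum_eq_single j] at h2
    · exact mul_ne_zero hj (mul_ne_zero (bb_ne _ hr j) hjk) h2
    · intro i _ hij
      by_cases hi : w i = 0
      · rw [hi, zero_mul]
      · rw [h1 i hij hi, mul_zero, mul_zero]
    · intro h
      exact absurd (Finset.mem_univ _) h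
  obtain ⟨j, hj⟩ : ∃ j, w j ≠ 0 := by
    by_contra hcon
    push Not at hcon
    rw [Finset.sum_eq_zero (fun j _ => hcon j)] at hw1
    exact zero_ne_one hw1
  have hx0 : ∀ i, w i ≠ 0 → (x i : EuclideanSpace ℝ (Fin m)) = 0 := by
    intro i hi
    ext k
    exact hz i hi k
  have honly : ∀ i, i ≠ j → w i = 0 := by
    intro i hij
    by_contra hi
    have h1 := (hF i hi).2
    rw [hx0 i hi] at h1
    have h2 := (hF j hj).2
    rw [hx0 j hj] at h2
    exact Set.disjoint_left.1 (hdisj i j hij) h1 h2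
  have h2 := congrArg (fun z : EuclideanSpace ℝ (Fin n) => z ⟨m, h⟩) h0
  simp only [Pool.Agent.Helper326_TP.J_core.euc_sum, hval] at h2
  rw [Finset.sum_eq_single j] at h2
  · have h3 : bc n m (x j) ⟨m, h⟩ = 1 := by
      rw [bc_apply, if_pos rfl, hx0 j hj, map_zero]
      simp
    rw [h3, mul_one] at h2
    exact mul_ne_zero hj (bb_ne _ hr j) h2
  · intro i _ hij
    rw [honly i hij, zero_mul]
  · intro h
    exact absurd (Finset.mem_univ _) h

end Pool.Agent.H33.TV
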