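import Pool.Agent.H33.TV.Face

set_option autoImplicit false
set_option linter.unusedSectionVars false

/-!
Solutions of balanced systems in pairwise disjoint faces, with a bound for the dimensions.
-/

namespace Pool.Agent.H33.TV

variable {V : Type} [NormedAddCommGroup V] [InnerProductSpace ℝ V] [FiniteDimensional ℝ V]

/-- a solution of the system `U` in pairwise disjoint faces -/
def Sol {κ : Type} {r : ℕ} (P : Set V) (U : κ → Fin r → (V →ᵃ[ℝ] ℝ)) (F : Fin r → Set V)
    (x : Fin r → V) : Prop :=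
  (∀ j, IsFace P (F j)) ∧ (∀ i j, i ≠ j → Disjoint (F i) (F j)) ∧ (∀ j, x j ∈ F j) ∧
    ∀ k, ∑ j, U k j (x j) = 0

theorem face_compact {P : Set V} (hP : IsPolytope P) {F : Set V} (hF : IsFace P F) : IsCompact F := by
  obtain ⟨S, hS, rfl⟩ := hP
  obtain ⟨-, l, c, h1, rfl⟩ := (isFace_iff _ _).1 hF
  have hl : Continuous l := l.continuous_of_finiteDimensional
  exact (S.finite_toSet.isCompact_convexHull ℝ).inter_right (isClosed_eq hl continuous_const)

theorem face_convex {P : Set V} (hP : IsPolytope P) {F : Set V} (hF : IsFace P F) : Convex ℝ F := by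
  obtain ⟨S, hS, rfl⟩ := hP
  obtain ⟨-, l, c, h1, rfl⟩ := (isFace_iff _ _).1 hF
  exact (convex_convexHull ℝ _).inter (convex_hyperplane l.isLinear c)

theorem aff_move (f : V →ᵃ[ℝ] ℝ) (x y : V) (t : ℝ) : f (x + t • y) = f x + t * f.linear y := by
  have h := f.map_vadd x (t • y)
  rw [vadd_eq_add, add_comm, map_smul, vadd_eq_add, smul_eq_mul] at h
  rw [h]
  ring

theorem reduce {κ : Type} [Fintype κ] {r : ℕ} {P : Set V} (hP : IsPolytope P)
    (U : κ → Fin r → (V →ᵃ[ℝ] ℝ)) (F : Fin r → Set V) (x : Fin r → V) (h : Sol P U F x)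
    (hlt : Fintype.card κ < ∑ j, dimSet (F j)) :
    ∃ (F' : Fin r → Set V) (x' : Fin r → V), Sol P U F' x' ∧
      ∑ j, dimSet (F' j) < ∑ j, dimSet (F j) := by
  classical
  obtain ⟨hF, hdisj, hx, heq⟩ := h
  let D : Fin r → Submodule ℝ V := fun j => vectorSpan ℝ (F j)
  let Φ : (∀ j, D j) →ₗ[ℝ] (κ → ℝ) := LinearMap.pi fun k =>
    ∑ j, ((U k j).linear ∘ₗ (D j).subtype) ∘ₗ LinearMap.proj j
  have hΦ : ∀ (y : ∀ j, D j) k, Φ y k = ∑ j, (U k j).linear (y j) := by
    intro y k
    simp [Φ, LinearMap.pi_apply, LinearMap.sum_apply]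
  have hker : LinearMap.ker Φ ≠ ⊥ := by
    apply LinearMap.ker_ne_bot_of_finrank_lt
    rw [Module.finrank_fintype_fun_eq_card, Module.finrank_pi_fintype]
    refine lt_of_lt_of_eq hlt (Finset.sum_congr rfl fun j _ => ?_)
    rw [dimSet_eq]
  obtain ⟨y, hy, hy0⟩ := Submodule.exists_mem_ne_zero_of_ne_bot hker
  have hyk : ∀ k, ∑ j, (U k j).linear (y j) = 0 := by
    intro k
    rw [← hΦ, hy]
    rfl
  obtain ⟨j0, hj0⟩ : ∃ j, y j ≠ 0 := by
    by_contra hcon
    push Not at hcon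
    exact hy0 (funext hcon)
  have hj0' : 0 < ‖((y j0 : D j0) : V)‖ := by
    rw [norm_pos_iff]
    intro h0
    exact hj0 (Subtype.ext h0)
  -- the exit time
  let A : Set ℝ := {t | 0 ≤ t ∧ ∀ j, x j + t • (y j : V) ∈ F j}
  have hA0 : (0 : ℝ) ∈ A := ⟨le_rfl, fun j => by simpa using hx j⟩
  have hAclosed : IsClosed A := by
    have : A = Set.Ici 0 ∩ ⋂ j, (fun t : ℝ => x j + t • (y j : V)) ⁻¹' (F j) := by
      ext t
      simp [A]
    rw [this]
    refine isClosed_Ici.inter (isClosed_iInter fun j => ?_)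
    exact (face_compact hP (hF j)).isClosed.preimage
      (continuous_const.add (continuous_id.smul continuous_const))
  obtain ⟨C, hC⟩ := Metric.isBounded_iff.1 (face_compact hP (hF j0)).isBounded
  have hAsub : A ⊆ Set.Icc 0 (C / ‖((y j0 : D j0) : V)‖) := by
    rintro t ⟨ht0, ht⟩
    refine ⟨ht0, ?_⟩
    rw [le_div_iff₀ hj0']
    have h1 := hC (ht j0) (hx j0)
    rwa [dist_eq_norm, add_sub_cancel_left, norm_smul, Real.norm_eq_abs, abs_of_nonneg ht0] at h1
  have hAc : IsCompact A := isCompact_Icc.of_isClosed_subset hAclosed hAsub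
  obtain ⟨T, hTA, hT⟩ := hAc.exists_isGreatest ⟨0, hA0⟩
  have hexit : ∃ j, ∀ ε : ℝ, 0 < ε → (x j + T • (y j : V)) + ε • (y j : V) ∉ F j := by
    by_contra hcon
    push Not at hcon
    choose ε hε hin using hcon
    obtain ⟨δ, hδ, hδε⟩ : ∃ δ : ℝ, 0 < δ ∧ ∀ j, δ ≤ ε j := by
      have : Nonempty (Fin r) := ⟨j0⟩
      obtain ⟨j1, hj1⟩ := Finite.exists_min ε
      exact ⟨ε j1, hε j1, hj1⟩
    have hmem : T + δ ∈ A := by
      refine ⟨add_nonneg hTA.1 hδ.le, fun j => ?_⟩
      have h1 := face_convex hP (hF j) (hTA.2 j) (hin j) (a := 1 - δ / ε j) (b := δ / ε j)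
        (sub_nonneg.2 ((div_le_one (hε j)).2 (hδε j))) (div_nonneg hδ.le (hε j).le) (by ring)
      have h2 : x j + (T + δ) • (y j : V) = (1 - δ / ε j) • (x j + T • (y j : V)) +
          (δ / ε j) • (x j + T • (y j : V) + ε j • (y j : V)) := by
        have h3 : δ • (y j : V) = (δ / ε j) • (ε j • (y j : V)) := by
          rw [smul_smul, div_mul_cancel₀ _ (hε j).ne']
        rw [add_smul, h3]
        module
      rw [h2]
      exact h1
    have := hT hmem
    linarith
  obtain ⟨i, hi⟩ := hexit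
  obtain ⟨l, hl1, z, hz, hlz⟩ := exit (face_convex hP (hF i)) (x i + T • (y i : V)) (y i : V)
    (hTA.2 i) (y i).2 hi
  refine ⟨Function.update F i {a | a ∈ F i ∧ l a = l (x i + T • (y i : V))},
    fun j => x j + T • (y j : V), ⟨?_, ?_, ?_, ?_⟩, ?_⟩
  · intro j
    by_cases hj : j = i
    · subst hj
      rw [Function.update_self]
      exact subface hP (hF j) l _ hl1 ⟨_, hTA.2 j, rfl⟩
    · rw [Function.update_of_ne hj]
      exact hF j
  · have hsub : ∀ j, Function.update F i {a | a ∈ F i ∧ l a = l (x i + T • (y i : V))} j ⊆ F j := by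
      intro j
      by_cases hj : j = i
      · subst hj
        rw [Function.update_self]
        exact fun a ha => ha.1
      · rw [Function.update_of_ne hj]
    intro a b hab
    exact (hdisj a b hab).mono (hsub a) (hsub b)
  · intro j
    by_cases hj : j = i
    · subst hj
      rw [Function.update_self]
      exact ⟨hTA.2 j, rfl⟩
    · rw [Function.update_of_ne hj]
      exact hTA.2 j
  · intro k
    simp only [aff_move, Finset.sum_add_distrib, ← Finset.mul_sum, hyk, heq, mul_zero, add_zero]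
  · apply Finset.sum_lt_sum
    · intro j _
      by_cases hj : j = i
      · subst hj
        rw [Function.update_self]
        exact (dim_lt l _ _ z (hTA.2 j) rfl hz hlz.ne').le
      · rw [Function.update_of_ne hj]
    · refine ⟨i, Finset.mem_univ _, ?_⟩
      rw [Function.update_self]
      exact dim_lt l _ _ z (hTA.2 i) rfl hz hlz.ne'

/-- The weights version. -/
theorem exists_weights {κ : Type} [Fintype κ] {r : ℕ} (hr : 2 ≤ r) {P : Set V} (hP : IsPolytope P)
    (hn : Fintype.card κ ≤ dimSet P) (U : κ → Fin r → (V →ᵃ[ℝ] ℝ))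
    (hU : ∀ k, ∀ x ∈ P, ∑ j, U k j x = 0) :
    ∃ (w : Fin r → ℝ) (F : Fin r → Set V) (x : Fin r → V), (∀ j, 0 ≤ w j) ∧ ∑ j, w j = 1 ∧
      (∀ j, w j ≠ 0 → IsFace P (F j) ∧ x j ∈ F j) ∧ (∀ j, w j = 0 → F j = ∅) ∧
      (∀ i j, i ≠ j → Disjoint (F i) (F j)) ∧ ∀ k, ∑ j, w j * U k j (x j) = 0 := by
  classical
  obtain ⟨S, hS, rfl⟩ := hP
  have hsub := subset_convexHull ℝ (S : Set V)
  rw [dimSet, affineSpan_convexHull, direction_affineSpan] at hn
  obtain ⟨l, c, w, h1, h2, h3, h4, h5, h6⟩ := poly S hS hr hn U (fun k v hv => hU k v (hsub hv))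
  let W : Fin r → ℝ := fun j => ∑ v, w j v
  let x : Fin r → V := fun j => ∑ v : S, ((W j)⁻¹ * w j v) • (v : V)
  have hW1 : ∀ j, W j ≠ 0 → ∑ v, (W j)⁻¹ * w j v = 1 := by
    intro j hj
    rw [← Finset.mul_sum]
    exact inv_mul_cancel₀ hj
  have hW0 : ∀ j, 0 ≤ W j := fun j => Finset.sum_nonneg fun v _ => h2 j v
  have hxP : ∀ j, W j ≠ 0 → x j ∈ convexHull ℝ (S : Set V) := fun j hj =>
    (convex_convexHull ℝ _).sum_mem (fun v _ => mul_nonneg (inv_nonneg.2 (hW0 j)) (h2 j v)) (hW1 j hj)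
      (fun v _ => hsub v.2)
  have hxl : ∀ j, W j ≠ 0 → l j (x j) = c j := by
    intro j hj
    have e : ∀ v : S, ((W j)⁻¹ * w j v) * l j v = ((W j)⁻¹ * w j v) * c j := by
      intro v
      by_cases h0 : w j v = 0
      · rw [h0]; ring
      · rw [h4 j v h0]
    show l j (∑ v : S, ((W j)⁻¹ * w j v) • (v : V)) = c j
    rw [map_sum]
    simp_rw [map_smul, smul_eq_mul, e, ← Finset.sum_mul, hW1 j hj, one_mul]
  refine ⟨W, fun j => if W j = 0 then ∅ else {y | y ∈ convexHull ℝ (S : Set V) ∧ l j y = c j}, x,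
    hW0, h3, ?_, ?_, ?_, ?_⟩
  · intro j hj
    simp only [if_neg hj]
    refine ⟨?_, hxP j hj, hxl j hj⟩
    rw [isFace_iff]
    exact ⟨⟨x j, hxP j hj, hxl j hj⟩, l j, c j, hull_ge S _ _ (h1 j), rfl⟩
  · intro j hj
    simp only [if_pos hj]
  · intro i j hij
    show Disjoint (if W i = 0 then ∅ else _) (if W j = 0 then ∅ else _)
    split_ifs
    · exact Set.disjoint_empty _
    · exact Set.empty_disjoint _
    · exact Set.disjoint_empty _
    · exact disjoint_faces S _ _ _ _ (h1 i) (h1 j) (fun v hv h => h5 v hv i j hij h)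
  · intro k
    rw [← h6 k]
    refine Finset.sum_congr rfl fun j _ => ?_
    by_cases hj : W j = 0
    · have h0 : ∀ v ∈ Finset.univ, w j v = 0 :=
        (Finset.sum_eq_zero_iff_of_nonneg (fun v _ => h2 j v)).1 hj
      rw [hj, zero_mul]
      symm
      refine Finset.sum_eq_zero fun v hv => ?_
      rw [h0 v hv, zero_mul]
    · show W j * U k j (∑ v : S, ((W j)⁻¹ * w j v) • (v : V)) = _
      rw [aff_sum (U k j) (fun v : S => (v : V)) _ (hW1 j hj), Finset.mul_sum]
      refine Finset.sum_congr rfl fun v _ => ?_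
      rw [smul_eq_mul]
      field_simp

/-- Solutions in pairwise disjoint faces. -/
theorem exists_sol {κ : Type} [Fintype κ] {r : ℕ} (hr : 2 ≤ r) {P : Set V} (hP : IsPolytope P)
    (hn : Fintype.card κ + r ≤ dimSet P + 1) (U : κ → Fin r → (V →ᵃ[ℝ] ℝ))
    (hU : ∀ k, ∀ x ∈ P, ∑ j, U k j x = 0) :
    ∃ (F : Fin r → Set V) (x : Fin r → V), Sol P U F x := by
  classical
  have : NeZero r := ⟨by omega⟩
  have hcard : Fintype.card (κ ⊕ {j : Fin r // j ≠ 0}) ≤ dimSet P := by
    have h1 : Fintype.card {j : Fin r // j ≠ 0} = r - 1 := by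
      have h2 := Fintype.card_subtype_compl (fun j : Fin r => j = 0)
      rw [Fintype.card_subtype_eq, Fintype.card_fin] at h2
      exact h2
    rw [Fintype.card_sum, h1]
    omega
  obtain ⟨w, F, x, h0, h1, h2, h3, h4, h5⟩ := exists_weights hr hP hcard
    (fun k j => Sum.elim (fun k => U k j) (fun i => AffineMap.const ℝ V
      ((if j = i.1 then (1 : ℝ) else 0) - (if j = 0 then 1 else 0))) k) (by
    rintro (k | i) y hy
    · exact hU k y hy
    · simp)
  have hw : ∀ i : Fin r, w i = w 0 := by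
    intro i
    by_cases hi : i = 0
    · rw [hi]
    · have := h5 (Sum.inr ⟨i, hi⟩)
      simp only [Sum.elim_inr, AffineMap.const_apply, mul_sub, Finset.sum_sub_distrib] at this
      simp at this
      linarith
  have hr0 : (r : ℝ) * w 0 = 1 := by
    rw [← h1, Finset.sum_congr rfl (fun i _ => hw i)]
    simp
  have hw0 : w 0 ≠ 0 := by
    intro h
    rw [h, mul_zero] at hr0
    exact zero_ne_one hr0
  refine ⟨F, x, fun j => (h2 j (by rw [hw]; exact hw0)).1, h4,
    fun j => (h2 j (by rw [hw]; exact hw0)).2, fun k => ?_⟩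
  have := h5 (Sum.inl k)
  simp only [Sum.elim_inl, hw, ← Finset.mul_sum] at this
  exact (mul_eq_zero.1 this).resolve_left hw0

/-- Solutions in pairwise disjoint faces, the sum of whose dimensions is at most the number of the
equations. -/
theorem exists_sol_dim {κ : Type} [Fintype κ] {r : ℕ} (hr : 2 ≤ r) {P : Set V} (hP : IsPolytope P)
    (hn : Fintype.card κ + r ≤ dimSet P + 1) (U : κ → Fin r → (V →ᵃ[ℝ] ℝ))
    (hU : ∀ k, ∀ x ∈ P, ∑ j, U k j x = 0) :
    ∃ (F : Fin r → Set V) (x : Fin r → V), Sol P U F x ∧ ∑ j, dimSet (F j) ≤ Fintype.card κ := by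
  classical
  have hex : ∃ n, ∃ (F : Fin r → Set V) (x : Fin r → V), Sol P U F x ∧ ∑ j, dimSet (F j) = n := by
    obtain ⟨F, x, h⟩ := exists_sol hr hP hn U hU
    exact ⟨_, F, x, h, rfl⟩
  obtain ⟨F, x, h, hd⟩ := Nat.find_spec hex
  refine ⟨F, x, h, ?_⟩
  by_contra hcon
  push Not at hcon
  obtain ⟨F', x', h', hlt⟩ := reduce hP U F x h hcon
  rw [hd] at hlt
  exact Nat.find_min hex hlt ⟨F', x', h', rfl⟩

end Pool.Agent.H33.TV
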